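import Pool.Agent.H215R3.SP.Tower

/-!
# Two places of the polynomial ring in countably many variables over `𝔽_p`
-/

set_option autoImplicit false

namespace Pool.Agent.H215R3.SP

open MvPolynomial

variable {p : ℕ} [Fact p.Prime]

/-- the first variable goes to `1`, the others are shifted -/
noncomputable def O : Lam p →+* Lam p :=
  (aeval (R := ZMod p) (fun n => if n = 0 then (1 : Lam p) else X (n - 1))).toRingHom

/-- the first variable goes to `0`, the others are shifted -/
noncomputable def Z : Lam p →+* Lam p :=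
  (aeval (R := ZMod p) (fun n => if n = 0 then (0 : Lam p) else X (n - 1))).toRingHom

/-- shift up -/
noncomputable def J : Lam p →+* Lam p := (rename (R := ZMod p) Nat.succ).toRingHom

lemma O_C (a : ZMod p) : O (C a) = C a := by simp [O]
lemma Z_C (a : ZMod p) : Z (C a) = C a := by simp [Z]
lemma J_C (a : ZMod p) : J (C a) = C a := by simp [J]
lemma O_X0 : O (X 0 : Lam p) = 1 := by simp [O]
lemma Z_X0 : Z (X 0 : Lam p) = 0 := by simp [Z]
lemma O_Xs (n : ℕ) : O (X (n + 1) : Lam p) = X n := by simp [O]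
lemma Z_Xs (n : ℕ) : Z (X (n + 1) : Lam p) = X n := by simp [Z]
lemma J_X (n : ℕ) : J (X n : Lam p) = X (n + 1) := by simp [J]

lemma O_J (f : Lam p) : O (J f) = f := by
  have : (O.comp J) = RingHom.id (Lam p) := by
    apply MvPolynomial.ringHom_ext
    · intro a
      simp [J_C, O_C]
    · intro n
      simp [J_X, O_Xs]
  exact congrArg (fun φ : Lam p →+* Lam p => φ f) this

lemma Z_J (f : Lam p) : Z (J f) = f := by
  have : (Z.comp J) = RingHom.id (Lam p) := by
    apply MvPolynomial.ringHom_ext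
    · intro a
      simp [J_C, Z_C]
    · intro n
      simp [J_X, Z_Xs]
  exact congrArg (fun φ : Lam p →+* Lam p => φ f) this

lemma sub_J_O (f : Lam p) : ∃ g, f = J (O f) + (1 - X 0) * g := by
  induction f using MvPolynomial.induction_on with
  | C a => exact ⟨0, by simp [O_C, J_C]⟩
  | add f g hf hg =>
    obtain ⟨a, ha⟩ := hf
    obtain ⟨b, hb⟩ := hg
    refine ⟨a + b, ?_⟩
    rw [map_add, map_add]
    linear_combination ha + hb
  | mul_X f n hf =>
    obtain ⟨a, ha⟩ := hf
    rw [map_mul, map_mul]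
    rcases n with _ | n
    · rw [O_X0, map_one]
      exact ⟨a * X 0 - J (O f), by linear_combination (X 0) * ha⟩
    · rw [O_Xs, J_X]
      exact ⟨a * X (n + 1), by linear_combination (X (n + 1)) * ha⟩

lemma sub_J_Z (f : Lam p) : ∃ g, f = J (Z f) + X 0 * g := by
  induction f using MvPolynomial.induction_on with
  | C a => exact ⟨0, by simp [Z_C, J_C]⟩
  | add f g hf hg =>
    obtain ⟨a, ha⟩ := hf
    obtain ⟨b, hb⟩ := hg
    refine ⟨a + b, ?_⟩
    rw [map_add, map_add]
    linear_combination ha + hb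
  | mul_X f n hf =>
    obtain ⟨a, ha⟩ := hf
    rw [map_mul, map_mul]
    rcases n with _ | n
    · rw [Z_X0, map_zero]
      exact ⟨f, by ring⟩
    · rw [Z_Xs, J_X]
      exact ⟨a * X (n + 1), by linear_combination (X (n + 1)) * ha⟩

lemma ker_O (f : Lam p) (h : O f = 0) : ∃ g, f = (1 - X 0) * g := by
  obtain ⟨g, hg⟩ := sub_J_O f
  refine ⟨g, ?_⟩
  rw [h, map_zero, zero_add] at hg
  exact hg

variable (p)

/-- the multiplicative set -/
noncomputable def S : Submonoid (Lam p) where
  carrier := {f | O f ≠ 0 ∧ Z (Z f) ≠ 0}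
  one_mem' := by
    refine ⟨?_, ?_⟩
    · rw [map_one]
      exact one_ne_zero
    · rw [map_one, map_one]
      exact one_ne_zero
  mul_mem' := by
    rintro a b ⟨h1, h2⟩ ⟨h3, h4⟩
    refine ⟨?_, ?_⟩
    · rw [map_mul]
      exact mul_ne_zero h1 h3
    · rw [map_mul, map_mul]
      exact mul_ne_zero h2 h4

variable {p}

lemma mem_S (f : Lam p) : f ∈ S p ↔ O f ≠ 0 ∧ Z (Z f) ≠ 0 := Iff.rfl

variable (p)

lemma S_le : S p ≤ nonZeroDivisors (Lam p) := by
  intro f hf
  apply mem_nonZeroDivisors_of_ne_zero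
  rintro rfl
  exact hf.1 (map_zero _)

/-- the semilocal ring -/
abbrev BB := Localization (S p)

instance : IsDomain (BB p) := IsLocalization.isDomain_localization (S_le p)

lemma inj : Function.Injective (algebraMap (Lam p) (BB p)) := IsLocalization.injective (BB p) (S_le p)

variable {p}

lemma unitS (f : Lam p) (hf : f ∈ S p) : IsUnit (algebraMap (Lam p) (BB p) f) :=
  IsLocalization.map_units (BB p) ⟨f, hf⟩

lemma injK : Function.Injective (algebraMap (Lam p) (KK p)) := IsFractionRing.injective (Lam p) (KK p)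

/-- extension of a specialisation -/
noncomputable def ext (q : Lam p →+* Lam p) (hq : ∀ f ∈ S p, q f ≠ 0) : BB p →+* KK p :=
  IsLocalization.lift (M := S p) (g := (algebraMap (Lam p) (KK p)).comp q) (by
    intro y
    rw [isUnit_iff_ne_zero]
    intro h
    exact hq y.1 y.2 (injK (by rw [map_zero]; exact h)))

lemma ext_alg (q : Lam p →+* Lam p) (hq : ∀ f ∈ S p, q f ≠ 0) (f : Lam p) :
    ext q hq (algebraMap (Lam p) (BB p) f) = algebraMap (Lam p) (KK p) (q f) :=
  IsLocalization.lift_eq _ f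

noncomputable def e1 : BB p →+* KK p := ext O (fun _ h => h.1)
noncomputable def e4 : BB p →+* KK p := ext (Z.comp Z) (fun _ h => h.2)

lemma Z_ne (f : Lam p) (h : f ∈ S p) : Z f ≠ 0 := by
  intro h0
  apply h.2
  rw [h0, map_zero]

noncomputable def e0 : BB p →+* KK p := ext Z Z_ne

/-- the inclusion in the fraction field -/
noncomputable def iota : BB p →+* KK p := ext (RingHom.id _) (fun f h => by
  rintro rfl
  exact h.1 (map_zero _))

lemma e1_alg (f : Lam p) : e1 (algebraMap (Lam p) (BB p) f) = algebraMap (Lam p) (KK p) (O f) :=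
  ext_alg _ _ f
lemma e4_alg (f : Lam p) : e4 (algebraMap (Lam p) (BB p) f) = algebraMap (Lam p) (KK p) (Z (Z f)) :=
  ext_alg _ _ f
lemma e0_alg (f : Lam p) : e0 (algebraMap (Lam p) (BB p) f) = algebraMap (Lam p) (KK p) (Z f) :=
  ext_alg _ _ f
lemma iota_alg (f : Lam p) : iota (algebraMap (Lam p) (BB p) f) = algebraMap (Lam p) (KK p) f :=
  ext_alg _ _ f

/-- every element is a fraction -/
lemma exists_frac (z : BB p) : ∃ a f : Lam p, f ∈ S p ∧
    z * algebraMap (Lam p) (BB p) f = algebraMap (Lam p) (BB p) a := by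
  obtain ⟨⟨a, f⟩, h⟩ := IsLocalization.surj (S p) z
  exact ⟨a, f.1, f.2, h⟩

lemma alg_ne (f : Lam p) (hf : f ∈ S p) : algebraMap (Lam p) (BB p) f ≠ 0 := (unitS f hf).ne_zero

lemma K_ne {f : Lam p} (hf : f ≠ 0) : algebraMap (Lam p) (KK p) f ≠ 0 := by
  intro h
  exact hf (injK (by rw [h, map_zero]))

lemma iota_inj : Function.Injective (iota (p := p)) := by
  rw [injective_iff_map_eq_zero]
  intro z hz
  obtain ⟨a, f, hf, h⟩ := exists_frac z
  have h1 := congrArg iota h
  rw [map_mul, hz, zero_mul, iota_alg] at h1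
  have h2 : a = 0 := by
    by_contra h3
    exact K_ne h3 h1.symm
  rw [h2, map_zero] at h
  rcases mul_eq_zero.1 h with h3 | h3
  · exact h3
  · exact absurd h3 (alg_ne f hf)

/-- coordinates -/
noncomputable def w : BB p := algebraMap (Lam p) (BB p) (X 0)
noncomputable def s : BB p := algebraMap (Lam p) (BB p) (X 1)

lemma e1_w : e1 (w (p := p)) = 1 := by rw [w, e1_alg, O_X0, map_one]
lemma e4_w : e4 (w (p := p)) = 0 := by rw [w, e4_alg, Z_X0, map_zero, map_zero]
lemma e0_w : e0 (w (p := p)) = 0 := by rw [w, e0_alg, Z_X0, map_zero]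
lemma e4_s : e4 (s (p := p)) = 0 := by rw [s, e4_alg, Z_Xs 0, Z_X0, map_zero]
lemma e0_s : e0 (s (p := p)) = algebraMap (Lam p) (KK p) (X 0) := by rw [s, e0_alg, Z_Xs 0]

lemma JJ_mem (f : Lam p) (hf : f ≠ 0) : J (J f) ∈ S p := by
  rw [mem_S, O_J, Z_J, Z_J]
  refine ⟨?_, hf⟩
  intro h
  apply hf
  rw [← O_J f, h, map_zero]

/-- constants -/
noncomputable def kap : KK p →+* BB p :=
  IsLocalization.lift (M := nonZeroDivisors (Lam p))
    (g := (algebraMap (Lam p) (BB p)).comp (J.comp J)) (by
    intro y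
    exact unitS _ (JJ_mem y.1 (nonZeroDivisors.ne_zero y.2)))

lemma kap_alg (f : Lam p) : kap (algebraMap (Lam p) (KK p) f) = algebraMap (Lam p) (BB p) (J (J f)) :=
  IsLocalization.lift_eq _ f

lemma e4_kap (u : KK p) : e4 (kap u) = u := by
  have : (e4.comp kap) = RingHom.id (KK p) := by
    apply IsLocalization.ringHom_ext (nonZeroDivisors (Lam p))
    apply MvPolynomial.ringHom_ext
    · intro a
      simp only [RingHom.comp_apply, RingHom.id_apply]
      rw [kap_alg, J_C, J_C, e4_alg, Z_C, Z_C]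
    · intro n
      simp only [RingHom.comp_apply, RingHom.id_apply]
      rw [kap_alg, e4_alg, Z_J, Z_J]
  exact congrArg (fun φ : KK p →+* KK p => φ u) this

/-- an element with prescribed value at the first place and value zero at the other -/
lemma exists_e1 (u : KK p) : ∃ z : BB p, e1 z = u ∧ e4 z = 0 := by
  obtain ⟨a, b, hb, hab⟩ := IsFractionRing.div_surjective (A := Lam p) u
  have hb0 : b ≠ 0 := nonZeroDivisors.ne_zero hb
  set f : Lam p := J b * X 0 + (1 - X 0) with hf
  have h1 : O f = b := by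
    rw [hf, map_add, map_mul, map_sub, map_one, O_X0, O_J]
    ring
  have h4 : Z (Z f) = 1 := by
    rw [hf, map_add, map_mul, map_sub, map_one, Z_X0, mul_zero, sub_zero, zero_add, map_one]
  have hfS : f ∈ S p := by
    rw [mem_S, h1, h4]
    exact ⟨hb0, one_ne_zero⟩
  obtain ⟨v, hv⟩ := unitS f hfS
  refine ⟨algebraMap (Lam p) (BB p) (J a) * w * ((v⁻¹ : (BB p)ˣ) : BB p), ?_, ?_⟩
  · rw [map_mul, map_mul, e1_w, mul_one, e1_alg, O_J]
    have h5 : e1 (v : BB p) * e1 ((v⁻¹ : (BB p)ˣ) : BB p) = 1 := by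
      rw [← map_mul, Units.mul_inv, map_one]
    rw [hv, e1_alg, h1] at h5
    rw [← hab]
    have := K_ne hb0
    field_simp
    linear_combination (algebraMap (Lam p) (KK p) a) * h5
  · rw [map_mul, map_mul, e4_w, mul_zero, zero_mul]

lemma exists_e (u t : KK p) : ∃ z : BB p, e1 z = u ∧ e4 z = t := by
  obtain ⟨z, h1, h4⟩ := exists_e1 u
  refine ⟨z + (1 - w) * kap t, ?_, ?_⟩
  · simp only [map_add, map_mul, map_sub, map_one, h1, e1_w]
    ring
  · simp only [map_add, map_mul, map_sub, map_one, h4, e4_w, e4_kap]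
    ring

lemma isUnit_BB (z : BB p) (h1 : e1 z ≠ 0) (h4 : e4 z ≠ 0) : IsUnit z := by
  obtain ⟨a, f, hf, h⟩ := exists_frac z
  have ha : a ∈ S p := by
    refine ⟨?_, ?_⟩
    · intro h0
      have := congrArg e1 h
      rw [map_mul, e1_alg, e1_alg, h0, map_zero] at this
      rcases mul_eq_zero.1 this with h5 | h5
      · exact h1 h5
      · exact K_ne hf.1 h5
    · intro h0
      have := congrArg e4 h
      rw [map_mul, e4_alg, e4_alg, h0, map_zero] at this
      rcases mul_eq_zero.1 this with h5 | h5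
      · exact h4 h5
      · exact K_ne hf.2 h5
  have := unitS a ha
  rw [← h] at this
  exact isUnit_of_mul_isUnit_left this

lemma ker_e1 (z : BB p) (h : e1 z = 0) : ∃ b, z = (1 - w) * b := by
  obtain ⟨a, f, hf, h'⟩ := exists_frac z
  have h2 : O a = 0 := by
    apply injK
    rw [← e1_alg, ← h', map_mul, h, zero_mul, map_zero]
  obtain ⟨g, hg⟩ := ker_O a h2
  obtain ⟨v, hv⟩ := unitS f hf
  refine ⟨algebraMap (Lam p) (BB p) g * ((v⁻¹ : (BB p)ˣ) : BB p), ?_⟩
  have h3 : z = algebraMap (Lam p) (BB p) a * ((v⁻¹ : (BB p)ˣ) : BB p) := by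
    rw [← h', ← hv, mul_assoc, Units.mul_inv, mul_one]
  rw [h3, hg, map_mul, map_sub, map_one, w]
  ring

lemma e4_of_e0 (z : BB p) (h : e0 z = 0) : e4 z = 0 := by
  obtain ⟨a, f, hf, h'⟩ := exists_frac z
  have h2 : Z a = 0 := by
    apply injK
    rw [← e0_alg, ← h', map_mul, h, zero_mul, map_zero]
  have h4 := congrArg e4 h'
  rw [map_mul, e4_alg, e4_alg, h2, map_zero, map_zero] at h4
  rcases mul_eq_zero.1 h4 with h5 | h5
  · exact h5
  · exact absurd h5 (K_ne hf.2)

/-! ### Noetherianity -/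

open Polynomial in
/-- the map from `K[s][w]` -/
noncomputable def iot : Polynomial (Polynomial (KK p)) →+* BB p :=
  eval₂RingHom (eval₂RingHom kap s) w

lemma alg_mem_range (a : Lam p) : ∃ b, iot b = algebraMap (Lam p) (BB p) a := by
  induction a using MvPolynomial.induction_on with
  | C c =>
    refine ⟨((c.val : ℕ) : Polynomial (Polynomial (KK p))), ?_⟩
    have : (MvPolynomial.C c : Lam p) = ((c.val : ℕ) : Lam p) := by
      rw [← map_natCast (MvPolynomial.C : ZMod p →+* Lam p), ZMod.natCast_zmod_val]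
    rw [this, map_natCast, map_natCast]
  | add f g hf hg =>
    obtain ⟨b, hb⟩ := hf
    obtain ⟨c, hc⟩ := hg
    exact ⟨b + c, by rw [map_add, map_add, hb, hc]⟩
  | mul_X f n hf =>
    obtain ⟨b, hb⟩ := hf
    have key : ∃ c, iot c = algebraMap (Lam p) (BB p) (MvPolynomial.X n) := by
      rcases n with _ | _ | n
      · exact ⟨Polynomial.X, by simp [iot, w]⟩
      · exact ⟨Polynomial.C Polynomial.X, by simp [iot, s]⟩
      · refine ⟨Polynomial.C (Polynomial.C (algebraMap (Lam p) (KK p) (MvPolynomial.X n))), ?_⟩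
        rw [iot, Polynomial.coe_eval₂RingHom, Polynomial.eval₂_C, Polynomial.coe_eval₂RingHom,
          Polynomial.eval₂_C, kap_alg, J_X, J_X]
    obtain ⟨c, hc⟩ := key
    exact ⟨b * c, by rw [map_mul, map_mul, hb, hc]⟩

instance : IsNoetherianRing (BB p) := by
  have h1 : WellFoundedGT (Ideal (Polynomial (Polynomial (KK p)))) :=
    (isNoetherian_iff').1 inferInstance
  have key : ∀ I : Ideal (BB p), (I.comap iot).map iot = I := by
    intro I
    apply le_antisymm Ideal.map_comap_le
    intro z hz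
    obtain ⟨a, f, hf, h⟩ := exists_frac z
    obtain ⟨b, hb⟩ := alg_mem_range a
    obtain ⟨v, hv⟩ := unitS f hf
    have h3 : z = iot b * ((v⁻¹ : (BB p)ˣ) : BB p) := by
      rw [hb, ← h, ← hv, mul_assoc, Units.mul_inv, mul_one]
    rw [h3]
    apply Ideal.mul_mem_right
    apply Ideal.mem_map_of_mem
    rw [Ideal.mem_comap, hb, ← h]
    exact I.mul_mem_right _ hz
  have h2 : WellFoundedGT (Ideal (BB p)) := by
    let F : Ideal (BB p) ↪o Ideal (Polynomial (Polynomial (KK p))) := OrderEmbedding.ofMapLEIff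
      (fun I => I.comap iot) (by
        intro I I'
        constructor
        · intro h
          rw [← key I, ← key I']
          exact Ideal.map_mono h
        · intro h
          exact Ideal.comap_mono h)
    exact F.wellFoundedGT
  exact (isNoetherian_iff').2 h2

end Pool.Agent.H215R3.SP
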