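import Mathlib

/-!
# Cartier operators on the polynomial ring in countably many variables over `𝔽_p`
-/

set_option autoImplicit false

namespace Pool.Agent.H215R3.SP

open MvPolynomial

variable (p : ℕ) [Fact p.Prime]

/-- the polynomial ring in countably many variables -/
abbrev Lam := MvPolynomial ℕ (ZMod p)

/-- last digits of an exponent vector -/
noncomputable def md (m : ℕ →₀ ℕ) : ℕ →₀ ℕ := m.mapRange (fun k => k % p) (Nat.zero_mod p)

/-- the other digits of an exponent vector -/
noncomputable def dv (m : ℕ →₀ ℕ) : ℕ →₀ ℕ := m.mapRange (fun k => k / p) (Nat.zero_div p)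

omit [Fact p.Prime] in
lemma md_apply (m : ℕ →₀ ℕ) (n : ℕ) : md p m n = m n % p := rfl
omit [Fact p.Prime] in
lemma dv_apply (m : ℕ →₀ ℕ) (n : ℕ) : dv p m n = m n / p := rfl

omit [Fact p.Prime] in
lemma md_add_dv (m : ℕ →₀ ℕ) : md p m + p • dv p m = m := by
  ext n
  rw [Finsupp.add_apply, Finsupp.smul_apply, md_apply, dv_apply, smul_eq_mul]
  exact Nat.mod_add_div _ _

open Classical in
/-- a coordinate with respect to the basis of the monomials with small exponents -/
noncomputable def D (b : ℕ →₀ ℕ) : Lam p →ₗ[ZMod p] Lam p :=
  (basisMonomials ℕ (ZMod p)).constr (ZMod p)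
    (fun m => if md p m = b then monomial (dv p m) 1 else 0)

open Classical in
lemma D_monomial (b m : ℕ →₀ ℕ) (a : ZMod p) :
    D p b (monomial m a) = if md p m = b then monomial (dv p m) a else 0 := by
  have h := (basisMonomials ℕ (ZMod p)).constr_basis (ZMod p)
    (fun m => if md p m = b then (monomial (dv p m) 1 : Lam p) else 0) m
  rw [coe_basisMonomials] at h
  have h2 : (monomial m a : Lam p) = a • monomial m 1 := by
    rw [smul_monomial, smul_eq_mul, mul_one]
  rw [h2, map_smul]
  change a • ((basisMonomials ℕ (ZMod p)).constr (ZMod p) _ (monomial m 1)) = _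
  rw [h]
  split_ifs
  · rw [smul_monomial, smul_eq_mul, mul_one]
  · rw [smul_zero]

lemma D_pow_mul (b : ℕ →₀ ℕ) (f g : Lam p) : D p b (f ^ p * g) = f * D p b g := by
  classical
  induction f using MvPolynomial.induction_on' with
  | monomial m c =>
    induction g using MvPolynomial.induction_on' with
    | monomial k d =>
      rw [monomial_pow, monomial_mul, D_monomial, D_monomial, ZMod.pow_card c]
      have h1 : md p (p • m + k) = md p k := by
        ext n
        rw [md_apply, md_apply, Finsupp.add_apply, Finsupp.smul_apply, smul_eq_mul]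
        exact Nat.mul_add_mod _ _ _
      have h2 : dv p (p • m + k) = m + dv p k := by
        ext n
        rw [dv_apply, Finsupp.add_apply, Finsupp.add_apply, dv_apply, Finsupp.smul_apply,
          smul_eq_mul]
        exact Nat.mul_add_div (Fact.out : p.Prime).pos _ _
      rw [h1, h2]
      split_ifs
      · rw [monomial_mul]
      · rw [mul_zero]
    | add g g' h h' => rw [mul_add, map_add, h, h', map_add, mul_add]
  | add f f' h h' =>
    have : (f + f') ^ p = f ^ p + f' ^ p := add_pow_char _ _ _
    rw [this, add_mul, map_add, h, h', add_mul]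

lemma coeff_D (b d : ℕ →₀ ℕ) (hb : md p b = b) (f : Lam p) :
    coeff d (D p b f) = coeff (b + p • d) f := by
  classical
  induction f using MvPolynomial.induction_on' with
  | monomial m c =>
    rw [D_monomial, coeff_monomial]
    by_cases h : m = b + p • d
    · subst h
      have h1 : md p (b + p • d) = b := by
        conv_rhs => rw [← hb]
        ext n
        rw [md_apply, md_apply, Finsupp.add_apply, Finsupp.smul_apply, smul_eq_mul]
        exact Nat.add_mul_mod_self_left _ _ _
      have h2 : dv p (b + p • d) = d := by
        ext n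
        rw [dv_apply, Finsupp.add_apply, Finsupp.smul_apply, smul_eq_mul]
        have h3 : b n < p := by
          have := congrArg (fun x => x n) hb
          simp only [md_apply] at this
          rw [← this]
          exact Nat.mod_lt _ (Fact.out : p.Prime).pos
        rw [Nat.add_mul_div_left _ _ (Fact.out : p.Prime).pos, Nat.div_eq_of_lt h3, zero_add]
      rw [if_pos rfl, if_pos h1, h2, coeff_monomial, if_pos rfl]
    · rw [if_neg h]
      split_ifs with h1
      · rw [coeff_monomial, if_neg]
        intro h2
        apply h
        rw [← md_add_dv p m, h1, h2]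
      · exact coeff_zero _
  | add f g hf hg => rw [map_add, coeff_add, coeff_add, hf, hg]

omit [Fact p.Prime] in
lemma md_md (m : ℕ →₀ ℕ) : md p (md p m) = md p m := by
  ext n
  rw [md_apply, md_apply]
  exact Nat.mod_mod _ _

/-- For every nonzero `c` there is a Cartier operator taking the value `1` at `c`. -/
theorem exists_cartier (c : Lam p) (hc : c ≠ 0) : ∃ (e : ℕ) (Φ : Lam p →+ Lam p), 1 ≤ e ∧
    (∀ f g, Φ (f ^ p ^ e * g) = f * Φ g) ∧ Φ c = 1 := by
  classical
  induction hn : c.totalDegree using Nat.strong_induction_on generalizing c with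
  | _ n ih =>
    by_cases h0 : n = 0
    · subst h0
      rw [totalDegree_eq_zero_iff_eq_C] at hn
      set u := coeff 0 c with hu
      have hu0 : u ≠ 0 := by
        intro h
        rw [h, map_zero] at hn
        exact hc hn
      refine ⟨1, (u⁻¹ • D p 0).toAddMonoidHom, le_rfl, ?_, ?_⟩
      · intro f g
        rw [pow_one]
        change u⁻¹ • D p 0 (f ^ p * g) = f * (u⁻¹ • D p 0 g)
        rw [D_pow_mul, mul_smul_comm]
      · change u⁻¹ • D p 0 c = 1
        rw [hn]
        change u⁻¹ • D p 0 (monomial 0 u) = 1
        have h1 : md p 0 = 0 := by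
          ext n
          rw [md_apply, Finsupp.zero_apply, Nat.zero_mod]
        have h2 : dv p 0 = 0 := by
          ext n
          rw [dv_apply, Finsupp.zero_apply, Nat.zero_div]
        rw [D_monomial, if_pos h1, h2, smul_monomial, smul_eq_mul, inv_mul_cancel₀ hu0]
        rfl
    · obtain ⟨m, hm⟩ := ne_zero_iff.1 hc
      set b := md p m with hb
      have hbb : md p b = b := md_md p m
      have h1 : D p b c ≠ 0 := by
        rw [ne_zero_iff]
        refine ⟨dv p m, ?_⟩
        rw [coeff_D p b _ hbb, md_add_dv]
        exact hm
      have hp : 2 ≤ p := (Fact.out : p.Prime).two_le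
      have h2 : (D p b c).totalDegree < n := by
        have h3 : (D p b c).totalDegree ≤ n / p := by
          rw [totalDegree]
          apply Finset.sup_le
          intro d hd
          rw [mem_support_iff, coeff_D p b _ hbb] at hd
          have h4 := le_totalDegree (mem_support_iff.2 hd)
          rw [hn, Finsupp.sum_add_index' (fun _ => rfl) (fun _ _ _ => rfl),
            Finsupp.sum_smul_index' (fun _ => rfl)] at h4
          rw [Nat.le_div_iff_mul_le (Fact.out : p.Prime).pos]
          refine le_trans ?_ (le_trans (Nat.le_add_left _ _) h4)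
          rw [Finsupp.sum, Finsupp.sum, Finset.sum_mul]
          apply Finset.sum_le_sum
          intro i _
          rw [smul_eq_mul, mul_comm]
        exact lt_of_le_of_lt h3 (Nat.div_lt_self (Nat.pos_of_ne_zero h0) hp)
      obtain ⟨e, Φ, he, h3, h4⟩ := ih _ h2 (D p b c) h1 rfl
      refine ⟨e + 1, Φ.comp (D p b).toAddMonoidHom, by omega, ?_, ?_⟩
      · intro f g
        change Φ (D p b (f ^ p ^ (e + 1) * g)) = f * Φ (D p b g)
        rw [pow_succ, pow_mul, D_pow_mul, h3]
      · exact h4

end Pool.Agent.H215R3.SP
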