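import Mathlib

/-!
# Catenary and universally catenary rings
-/

set_option autoImplicit false

namespace Pool.Agent.H215R3.SP

/-- A ring is catenary if any two saturated chains of prime ideals (every step is a covering, that
is, there is no prime ideal strictly between two consecutive members) with the same first member and
the same last member have the same length. -/
def IsCatenary (S : Type) [CommRing S] : Prop :=
  ∀ a b : RelSeries {(P, Q) : PrimeSpectrum S × PrimeSpectrum S | P ⋖ Q},
    a.head = b.head → a.last = b.last → a.length = b.length

/-- A ring is universally catenary if all its finitely generated algebras are catenary. -/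
def IsUniversallyCatenary (R : Type) [CommRing R] : Prop :=
  ∀ (S : Type) [CommRing S] [Algebra R S], Algebra.FiniteType R S → IsCatenary S

/-- The absolute integral closure `R⁺` of the domain `R` is a solid `R`-algebra: for every algebraic
closure `Ω` of the fraction field of `R` (that is, every algebraically closed field `Ω` containing
`R` and algebraic over `R`) there is a nonzero `R`-linear map from the integral closure of `R` in `Ω`
to `R`. -/
def IsSolidPlus (R : Type) [CommRing R] : Prop :=
  ∀ (Ω : Type) [Field Ω] [IsAlgClosed Ω] [Algebra R Ω] [Algebra.IsAlgebraic R Ω],
    Function.Injective (algebraMap R Ω) → ∃ φ : integralClosure R Ω →ₗ[R] R, φ ≠ 0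

end Pool.Agent.H215R3.SP
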