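import Pool.Agent.H215R3.SP.Ring
import Pool.Agent.H215R3.SP.Defs

/-!
# The pinched ring is not universally catenary
-/

set_option autoImplicit false

namespace Pool.Agent.H215R3.SP

open Polynomial

/-- saturated chains of maximal length -/
lemma exists_sat {S : Type} [CommRing S] [IsDomain S] [IsNoetherianRing S] (N : PrimeSpectrum S) :
    ∃ a : RelSeries {(P, Q) : PrimeSpectrum S × PrimeSpectrum S | P ⋖ Q},
      a.head.asIdeal = ⊥ ∧ a.last = N ∧ (a.length : ℕ∞) = N.asIdeal.height := by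
  obtain ⟨l, hl, hlen⟩ := Ideal.exists_ltSeries_length_eq_height N.asIdeal
  have hl' : RelSeries.last l = N := hl
  have h1 : (l.length : ℕ∞) = Order.height (RelSeries.last l) := by
    rw [hlen, PrimeSpectrum.height_eq_orderHeight, hl']
  have h2 := Order.height_eq_index_of_length_eq_height_last h1
  refine ⟨⟨l.length, l.toFun, ?_⟩, ?_, hl', hlen⟩
  · intro i
    change l.toFun i.castSucc ⋖ l.toFun i.succ
    refine ⟨l.step i, ?_⟩
    intro c hc1 hc2
    have h3 := Order.height_add_one_le hc1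
    have h4 := Order.height_add_one_le hc2
    have h5 : Order.height (l.toFun i.castSucc) = (i.castSucc : ℕ) := h2 i.castSucc
    have h6 : Order.height (l.toFun i.succ) = (i.succ : ℕ) := h2 i.succ
    rw [h5] at h3
    rw [h6] at h4
    have h7 : (((i.castSucc : ℕ) : ℕ∞) + 1 + 1) ≤ ((i.succ : ℕ) : ℕ∞) :=
      le_trans (by gcongr) h4
    have h8 : (i.castSucc : ℕ) + 1 + 1 ≤ (i.succ : ℕ) := by exact_mod_cast h7
    simp at h8
  · change (l.toFun 0).asIdeal = ⊥
    have h3 : Order.height (l.toFun 0) = ((0 : Fin (l.length + 1)) : ℕ) := h2 0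
    have h4 : Order.height (l.toFun 0) = 0 := by
      rw [h3]
      simp
    rw [Order.height_eq_zero] at h4
    have h5 : (⟨⊥, Ideal.isPrime_bot⟩ : PrimeSpectrum S) ≤ l.toFun 0 := by
      change (⊥ : Ideal S) ≤ _
      exact bot_le
    have h6 := h4 h5
    rw [eq_bot_iff]
    exact h6

/-- a criterion for a ring not to be catenary -/
lemma not_catenary {S : Type} [CommRing S] [IsDomain S] [IsNoetherianRing S] (P N : PrimeSpectrum S)
    (h1 : (⟨⊥, Ideal.isPrime_bot⟩ : PrimeSpectrum S) ⋖ P) (h2 : P ⋖ N)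
    (h3 : (3 : ℕ∞) ≤ N.asIdeal.height) : ¬ IsCatenary S := by
  intro hcat
  obtain ⟨a, ha, haN, hlen⟩ := exists_sat N
  let b : RelSeries {(P, Q) : PrimeSpectrum S × PrimeSpectrum S | P ⋖ Q} :=
    { length := 2
      toFun := ![⟨⊥, Ideal.isPrime_bot⟩, P, N]
      step := by
        intro i
        fin_cases i
        · exact h1
        · exact h2 }
  have hb : b.head = ⟨⊥, Ideal.isPrime_bot⟩ := rfl
  have hbN : b.last = N := rfl
  have h4 := hcat a b (by
    rw [hb]
    exact PrimeSpectrum.ext ha) (by rw [haN, hbN])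
  rw [← hlen, h4] at h3
  change ((3 : ℕ) : ℕ∞) ≤ ((2 : ℕ) : ℕ∞) at h3
  rw [Nat.cast_le] at h3
  omega

variable (p : ℕ) [Fact p.Prime]

/-- evaluation at `w` -/
noncomputable def pr : (AA p)[X] →+* BB p := eval₂RingHom (AA p).subtype w

variable {p}

lemma pr_C (a : AA p) : pr p (C a) = a.1 := by
  rw [pr, coe_eval₂RingHom, eval₂_C]
  rfl

lemma pr_X : pr p X = w := by
  rw [pr, coe_eval₂RingHom, eval₂_X]

lemma pr_surj : Function.Surjective (pr p) := by
  intro z
  obtain ⟨r, r', h⟩ := decomp z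
  exact ⟨C r + C r' * X, by rw [map_add, map_mul, pr_C, pr_C, pr_X, h]⟩

variable (p)

noncomputable def c0 : AA p := ⟨w * (1 - w), by
  rw [mem_AA, map_mul, map_mul, map_sub, map_sub, e1_w, e4_w, map_one, map_one]
  ring⟩

noncomputable def cw0 : AA p := ⟨w * (1 - w) * w, by
  rw [mem_AA, map_mul, map_mul, map_mul, map_mul, map_sub, map_sub, e1_w, e4_w, map_one, map_one]
  ring⟩

noncomputable def d0 : AA p := ⟨(1 - w) * s, by
  rw [mem_AA, map_mul, map_mul, map_sub, map_sub, e1_w, e4_w, map_one, map_one, e4_s]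
  ring⟩

noncomputable def l0 : (AA p)[X] := C (c0 p) * X - C (cw0 p)

variable {p}

lemma w_ne_zero : (w (p := p)) ≠ 0 := by
  intro h
  have := e1_w (p := p)
  rw [h, map_zero] at this
  exact zero_ne_one this

lemma one_sub_w_ne_zero : (1 - w (p := p)) ≠ 0 := by
  intro h
  have := congrArg e4 h
  rw [map_sub, map_one, e4_w, map_zero, sub_zero] at this
  exact one_ne_zero this

lemma c0_ne : c0 p ≠ 0 := by
  intro h
  have h1 : w * (1 - w) = (0 : BB p) := congrArg Subtype.val h
  exact mul_ne_zero w_ne_zero one_sub_w_ne_zero h1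

lemma pr_l0 : pr p (l0 p) = 0 := by
  rw [l0, map_sub, map_mul, pr_C, pr_C, pr_X]
  change w * (1 - w) * w - w * (1 - w) * w = 0
  rw [sub_self]

lemma l0_ne : l0 p ≠ 0 := by
  intro h
  have := congrArg (fun f => coeff f 1) h
  simp only [l0, coeff_sub, coeff_C_mul, coeff_X_one, mul_one, coeff_C_ne_zero one_ne_zero,
    sub_zero, coeff_zero] at this
  exact c0_ne this

lemma red (h : (AA p)[X]) : ∃ (m : ℕ) (r : AA p), l0 p ∣ C (c0 p) ^ m * h - C r := by
  induction h using Polynomial.induction_on' with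
  | add f g hf hg =>
    obtain ⟨m, r, u, hu⟩ := hf
    obtain ⟨m', r', u', hu'⟩ := hg
    refine ⟨m + m', c0 p ^ m' * r + c0 p ^ m * r', C (c0 p) ^ m' * u + C (c0 p) ^ m * u', ?_⟩
    rw [map_add, map_mul, map_mul, map_pow, map_pow]
    linear_combination (C (c0 p) ^ m') * hu + (C (c0 p) ^ m) * hu'
  | monomial n a =>
    refine ⟨n, a * cw0 p ^ n, ?_⟩
    obtain ⟨u, hu⟩ := sub_dvd_pow_sub_pow (C (c0 p) * X) (C (cw0 p)) n
    refine ⟨C a * u, ?_⟩
    rw [← C_mul_X_pow_eq_monomial, map_mul, map_pow]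
    rw [l0]
    linear_combination (C a) * hu

noncomputable instance prime_ker_pr : (RingHom.ker (pr p)).IsPrime := RingHom.ker_isPrime _

lemma C_mem_ker (r : AA p) (h : C r ∈ RingHom.ker (pr p)) : r = 0 := by
  rw [RingHom.mem_ker, pr_C] at h
  exact Subtype.ext h

lemma min_ker : RingHom.ker (pr p) ∈ (Ideal.span {l0 p}).minimalPrimes := by
  refine ⟨⟨prime_ker_pr, ?_⟩, ?_⟩
  · rw [Ideal.span_singleton_le_iff_mem]
    exact pr_l0
  · rintro Q ⟨hQ, hQ2⟩ hle h hh
    rw [Ideal.span_singleton_le_iff_mem] at hQ2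
    obtain ⟨m, r, u, hu⟩ := red h
    have h1 : C r ∈ RingHom.ker (pr p) := by
      have : C r = C (c0 p) ^ m * h - l0 p * u := by linear_combination -hu
      rw [this]
      exact sub_mem (Ideal.mul_mem_left _ _ hh) (Ideal.mul_mem_right _ _ pr_l0)
    have h2 := C_mem_ker r h1
    rw [h2, map_zero, sub_zero] at hu
    have h3 : C (c0 p) ^ m * h ∈ Q := by
      rw [hu]
      exact Ideal.mul_mem_right _ _ hQ2
    rcases hQ.mem_or_mem h3 with h4 | h4
    · exact absurd (C_mem_ker _ (hle (hQ.mem_of_pow_mem _ h4))) c0_ne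
    · exact h4

lemma height_ker : (RingHom.ker (pr p)).height ≤ 1 :=
  Ideal.height_le_one_of_isPrincipal_of_mem_minimalPrimes _ _ min_ker

lemma ker_e1_eq : RingHom.ker (e1 (p := p)) = Ideal.span {1 - w} := by
  ext z
  rw [RingHom.mem_ker, Ideal.mem_span_singleton]
  constructor
  · intro h
    obtain ⟨b, hb⟩ := ker_e1 z h
    exact ⟨b, hb⟩
  · rintro ⟨b, rfl⟩
    rw [map_mul, map_sub, map_one, e1_w, sub_self, zero_mul]

noncomputable instance prime_e1 : (RingHom.ker (e1 (p := p))).IsPrime := RingHom.ker_isPrime _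

lemma height_e1 : (RingHom.ker (e1 (p := p))).height ≤ 1 := by
  refine Ideal.height_le_one_of_isPrincipal_of_mem_minimalPrimes (Ideal.span {1 - w}) _ ?_
  rw [← ker_e1_eq, Ideal.minimalPrimes_eq_subsingleton_self]
  exact Set.mem_singleton _

/-- no chain of length two below an ideal of height at most one -/
lemma no_two {S : Type} [CommRing S] [IsDomain S] (Q P : Ideal S) [Q.IsPrime] [P.IsPrime]
    (h0 : ⊥ < Q) (h1 : Q < P) (h : P.height ≤ 1) : False := by
  have : (⊥ : Ideal S).IsPrime := Ideal.isPrime_bot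
  have h2 := Ideal.height_add_one_le_of_lt_of_isPrime h0
  have h3 := Ideal.height_add_one_le_of_lt_of_isPrime h1
  have h4 : (1 : ℕ∞) + 1 ≤ 1 := by
    refine le_trans ?_ (le_trans h3 h)
    gcongr
    exact le_trans (le_add_left le_rfl) h2
  exact absurd h4 (by decide)

variable (p)

/-- the maximal ideal of the polynomial ring -/
noncomputable def pe : (AA p)[X] →+* KK p := e1.comp (pr p)

noncomputable def PP : PrimeSpectrum (AA p)[X] := ⟨RingHom.ker (pr p), prime_ker_pr⟩
noncomputable def NN : PrimeSpectrum (AA p)[X] := ⟨RingHom.ker (pe p), RingHom.ker_isPrime _⟩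

variable {p}

lemma cov1 : (⟨⊥, Ideal.isPrime_bot⟩ : PrimeSpectrum (AA p)[X]) ⋖ PP p := by
  have hlt : (⊥ : Ideal (AA p)[X]) < RingHom.ker (pr p) := by
    rw [bot_lt_iff_ne_bot]
    intro h
    have h1 : l0 p ∈ RingHom.ker (pr p) := pr_l0
    rw [h, Ideal.mem_bot] at h1
    exact l0_ne h1
  refine ⟨hlt, ?_⟩
  intro Q h1 h2
  have := Q.isPrime
  exact no_two Q.asIdeal (RingHom.ker (pr p)) h1 h2 height_ker

lemma pe_X_sub : pe p (X - 1) = 0 := by
  change e1 (pr p (X - 1)) = 0
  rw [map_sub, map_one, pr_X, map_sub, e1_w, map_one, sub_self]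

lemma cov2 : PP p ⋖ NN p := by
  constructor
  · change RingHom.ker (pr p) < RingHom.ker (pe p)
    refine lt_of_le_of_ne ?_ ?_
    · intro h hh
      change e1 (pr p h) = 0
      rw [RingHom.mem_ker] at hh
      rw [hh, map_zero]
    · intro h
      have h1 : (X - 1 : (AA p)[X]) ∈ RingHom.ker (pe p) := pe_X_sub
      rw [← h, RingHom.mem_ker, map_sub, map_one, pr_X] at h1
      exact one_sub_w_ne_zero (by rw [← neg_sub, h1, neg_zero])
  · intro Q h1 h2
    have h1' : RingHom.ker (pr p) < Q.asIdeal := h1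
    have h2' : Q.asIdeal < RingHom.ker (pe p) := h2
    have := Q.isPrime
    have hpr : (Q.asIdeal.map (pr p)).IsPrime := Ideal.map_isPrime_of_surjective pr_surj h1'.le
    have hcm : (Q.asIdeal.map (pr p)).comap (pr p) = Q.asIdeal := by
      rw [Ideal.comap_map_of_surjective _ pr_surj]
      exact sup_eq_left.2 h1'.le
    refine no_two (Q.asIdeal.map (pr p)) (RingHom.ker e1) ?_ ?_ height_e1
    · rw [bot_lt_iff_ne_bot]
      intro h
      rw [h] at hcm
      exact h1'.ne hcm
    · refine lt_of_le_of_ne ?_ ?_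
      · rw [Ideal.map_le_iff_le_comap]
        intro x hx
        exact h2'.le hx
      · intro h
        rw [h] at hcm
        apply h2'.ne
        rw [← hcm]
        rfl

/-! ### a long chain -/

variable (p)

noncomputable def q0 : Ideal (AA p) := RingHom.ker (e0.comp (AA p).subtype)
noncomputable def m0 : Ideal (AA p) := RingHom.ker (e1.comp (AA p).subtype)

noncomputable instance : (q0 p).IsPrime := RingHom.ker_isPrime _
noncomputable instance : (m0 p).IsPrime := RingHom.ker_isPrime _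

variable {p}

lemma q0_le : q0 p ≤ m0 p := by
  intro z hz
  have h1 : e0 z.1 = 0 := hz
  have h2 := e4_of_e0 z.1 h1
  have h3 : e1 z.1 = e4 z.1 := z.2
  change e1 z.1 = 0
  rw [h3, h2]

lemma mem_q0 (z : AA p) : z ∈ q0 p ↔ e0 z.1 = 0 := Iff.rfl
lemma mem_m0 (z : AA p) : z ∈ m0 p ↔ e1 z.1 = 0 := Iff.rfl
lemma c0_val : (c0 p).1 = w * (1 - w) := rfl
lemma d0_val : (d0 p).1 = (1 - w) * s := rfl

lemma c0_mem : c0 p ∈ q0 p := by
  rw [mem_q0, c0_val, map_mul, e0_w, zero_mul]

lemma d0_mem : d0 p ∈ m0 p := by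
  rw [mem_m0, d0_val, map_mul, map_sub, map_one, e1_w, sub_self, zero_mul]

lemma d0_not_mem : d0 p ∉ q0 p := by
  rw [mem_q0, d0_val, map_mul, map_sub, map_one, e0_w, sub_zero, one_mul, e0_s]
  exact K_ne (MvPolynomial.X_ne_zero 0)

lemma height_NN : (3 : ℕ∞) ≤ (NN p).asIdeal.height := by
  have b0 : (⊥ : Ideal (AA p)[X]).IsPrime := Ideal.isPrime_bot
  have b1 : ((q0 p).map (C : AA p →+* (AA p)[X])).IsPrime := Ideal.isPrime_map_C_of_isPrime
  have b2 : ((m0 p).map (C : AA p →+* (AA p)[X])).IsPrime := Ideal.isPrime_map_C_of_isPrime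
  have b3 : (NN p).asIdeal.IsPrime := (NN p).isPrime
  have l1 : ⊥ < (q0 p).map (C : AA p →+* (AA p)[X]) := by
    rw [bot_lt_iff_ne_bot]
    intro h
    have h1 : C (c0 p) ∈ (q0 p).map (C : AA p →+* (AA p)[X]) := Ideal.mem_map_of_mem _ c0_mem
    rw [h, Ideal.mem_bot, C_eq_zero] at h1
    exact c0_ne h1
  have l2 : (q0 p).map (C : AA p →+* (AA p)[X]) < (m0 p).map (C : AA p →+* (AA p)[X]) := by
    refine lt_of_le_of_ne (Ideal.map_mono q0_le) ?_
    intro h
    have h1 : C (d0 p) ∈ (m0 p).map (C : AA p →+* (AA p)[X]) := Ideal.mem_map_of_mem _ d0_mem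
    rw [← h, Ideal.mem_map_C_iff] at h1
    have h2 := h1 0
    rw [coeff_C_zero] at h2
    exact d0_not_mem h2
  have l3 : (m0 p).map (C : AA p →+* (AA p)[X]) < (NN p).asIdeal := by
    refine lt_of_le_of_ne ?_ ?_
    · rw [Ideal.map_le_iff_le_comap]
      intro z hz
      change e1 (pr p (C z)) = 0
      rw [pr_C]
      exact hz
    · intro h
      have h1 : (X - 1 : (AA p)[X]) ∈ (NN p).asIdeal := pe_X_sub
      rw [← h, Ideal.mem_map_C_iff] at h1
      have h2 := h1 1
      rw [coeff_sub, coeff_X_one, coeff_one, if_neg one_ne_zero, sub_zero] at h2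
      have h3 : e1 (1 : BB p) = 0 := h2
      rw [map_one] at h3
      exact one_ne_zero h3
  have h1 := Ideal.height_add_one_le_of_lt_of_isPrime l1
  have h2 := Ideal.height_add_one_le_of_lt_of_isPrime l2
  have h3 := Ideal.height_add_one_le_of_lt_of_isPrime l3
  calc (3 : ℕ∞) = 0 + 1 + 1 + 1 := by norm_num
    _ ≤ (⊥ : Ideal (AA p)[X]).height + 1 + 1 + 1 := by
      gcongr
      exact zero_le
    _ ≤ ((q0 p).map (C : AA p →+* (AA p)[X])).height + 1 + 1 := by gcongr
    _ ≤ ((m0 p).map (C : AA p →+* (AA p)[X])).height + 1 := by gcongr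
    _ ≤ _ := h3

variable (p)

theorem not_universallyCatenary : ¬ IsUniversallyCatenary (AA p) := by
  intro h
  exact not_catenary (PP p) (NN p) cov1 cov2 height_NN (h (AA p)[X] inferInstance)

end Pool.Agent.H215R3.SP
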