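import Pool.Agent.H215R3.SP.Tower

/-!
# The retraction of the absolute integral closure
-/

set_option autoImplicit false

namespace Pool.Agent.H215R3.SP

open IntermediateField

variable (p : ℕ) [Fact p.Prime]

variable (Ω : Type) [Field Ω] [Algebra (KK p) Ω] [IsAlgClosure (KK p) Ω] [Algebra (Lam p) Ω]
  [IsScalarTower (Lam p) (KK p) Ω]

/-- the tower -/
noncomputable def EE (a : ℕ → Ω) : ℕ → IntermediateField (KK p) Ω
  | 0 => perfectClosure (KK p) Ω
  | (j + 1) => nxt p Ω (EE a j) (a j)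

lemma EE_perfect (a : ℕ → Ω) (j : ℕ) : PerfectField (EE p Ω a j) := by
  induction j with
  | zero =>
    have : IsAlgClosed Ω := IsAlgClosure.isAlgClosed (KK p)
    change PerfectField (perfectClosure (KK p) Ω)
    infer_instance
  | succ j ih => exact nxt_perfect p Ω _ ih _

/-- partial sums -/
def sm (e : ℕ → ℕ) : ℕ → ℕ
  | 0 => 0
  | (j + 1) => sm e j + e j

/-- the elements `G_j` -/
noncomputable def GG (c : ℕ → Lam p) (e : ℕ → ℕ) : ℕ → Lam p
  | 0 => 1
  | (j + 1) => GG c e j ^ p ^ e j * c j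

/-- composites of the Cartier operators -/
noncomputable def RR (C : ℕ → (Lam p →+ Lam p)) : ℕ → (Lam p →+ Lam p)
  | 0 => AddMonoidHom.id _
  | (j + 1) => (RR C j).comp (C j)

/-- composites of the traces -/
def eta {Ω : Type} (T : ℕ → Ω → Ω) : ℕ → Ω → Ω
  | 0 => id
  | (j + 1) => fun x => eta T j (T j x)

/-- products of roots -/
def gg {Ω : Type} [Field Ω] (v : ℕ → Ω) : ℕ → Ω
  | 0 => 1
  | (j + 1) => gg v j * v j

/-- all the data -/
structure Data where
  a : ℕ → Ω
  c : ℕ → Lam p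
  e : ℕ → ℕ
  C : ℕ → (Lam p →+ Lam p)
  v : ℕ → Ω
  T : ℕ → Ω → Ω
  he : ∀ j, 1 ≤ e j
  hC : ∀ j f g, C j (f ^ p ^ e j * g) = f * C j g
  hC1 : ∀ j, C j (c j) = 1
  hv : ∀ j, v j ^ p ^ sm e (j + 1) = algebraMap (Lam p) Ω (c j)
  hv0 : ∀ j, v j ∈ perfectClosure (KK p) Ω
  hT : ∀ j, IsStep p Ω (EE p Ω a j) (EE p Ω a (j + 1)) (v j) (T j)
  ha : ∀ x : Ω, ∃ j, a j = x

lemma le_EE (a : ℕ → Ω) (j : ℕ) (x : Ω) (hx : x ∈ EE p Ω a j) : x ∈ EE p Ω a (j + 1) :=
  le_nxt p Ω _ _ _ hx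

lemma zero_EE (a : ℕ → Ω) (j : ℕ) (x : Ω) (hx : x ∈ perfectClosure (KK p) Ω) : x ∈ EE p Ω a j := by
  induction j with
  | zero => exact hx
  | succ j ih => exact le_EE p Ω a j x ih

instance : Countable (KK p) := by
  have h0 : Countable (Lam p) := by
    rw [← Cardinal.mk_le_aleph0_iff]
    refine le_trans MvPolynomial.cardinalMk_le_max ?_
    simp
  have : Function.Surjective (fun x : Lam p × Lam p =>
      algebraMap (Lam p) (KK p) x.1 / algebraMap (Lam p) (KK p) x.2) := fun x => by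
    obtain ⟨a, b, _, h⟩ := IsFractionRing.div_surjective (A := Lam p) x
    exact ⟨(a, b), h⟩
  exact this.countable

theorem exists_data : Nonempty (Data p Ω) := by
  have : CharP Ω p := charP_Om p Ω
  have : IsAlgClosed Ω := IsAlgClosure.isAlgClosed (KK p)
  have : Algebra.IsAlgebraic (KK p) Ω := IsAlgClosure.isAlgebraic
  have : Countable Ω := by
    have h := Algebraic.countable (KK p) Ω
    have h2 : {x : Ω | IsAlgebraic (KK p) x} = Set.univ := by
      ext x
      simp [Algebra.IsAlgebraic.isAlgebraic]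
    rw [h2] at h
    exact Set.countable_univ_iff.1 h
  obtain ⟨a, ha⟩ := exists_surjective_nat Ω
  choose c hc h using fun j => exists_step p Ω (EE p Ω a j) (EE_perfect p Ω a j) (a j)
  choose e C he hC hC1 using fun j => exists_cartier p (c j) (hc j)
  have hroot : ∀ j, ∃ v : Ω, v ^ p ^ sm e (j + 1) = algebraMap (Lam p) Ω (c j) := fun j =>
    IsAlgClosed.exists_pow_nat_eq _ (pow_pos (Fact.out : p.Prime).pos _)
  choose v hv using hroot
  have hv0 : ∀ j, v j ∈ perfectClosure (KK p) Ω := by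
    intro j
    have : ExpChar (KK p) p := ExpChar.prime Fact.out
    rw [mem_perfectClosure_iff_pow_mem p]
    refine ⟨sm e (j + 1), algebraMap (Lam p) (KK p) (c j), ?_⟩
    rw [hv, ← IsScalarTower.algebraMap_apply]
  choose T hT using fun j => h j (sm e (j + 1)) (v j) (zero_EE p Ω a j _ (hv0 j)) (hv j)
  exact ⟨⟨a, c, e, C, v, T, he, hC, hC1, hv, hv0, hT, ha⟩⟩

variable {p Ω}
variable (d : Data p Ω)

/-- the value at level `j` -/
def Val (j : ℕ) (x : Ω) (y : Lam p) : Prop :=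
  x ∈ EE p Ω d.a j ∧ ∃ F : Lam p, algebraMap (Lam p) Ω F =
    algebraMap (Lam p) Ω (GG p d.c d.e j) * eta d.T j x ^ p ^ sm d.e j ∧ y = RR p d.C j F

lemma algInj : Function.Injective (algebraMap (Lam p) Ω) := by
  rw [IsScalarTower.algebraMap_eq (Lam p) (KK p) Ω]
  exact (algebraMap (KK p) Ω).injective.comp (IsFractionRing.injective (Lam p) (KK p))

lemma eta_add (j : ℕ) : ∀ x ∈ EE p Ω d.a j, ∀ y ∈ EE p Ω d.a j,
    eta d.T j (x + y) = eta d.T j x + eta d.T j y := by
  induction j with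
  | zero =>
    intro x _ y _
    rfl
  | succ j ih =>
    intro x hx y hy
    change eta d.T j (d.T j (x + y)) = eta d.T j (d.T j x) + eta d.T j (d.T j y)
    rw [(d.hT j).add x hx y hy, ih _ ((d.hT j).mem x hx) _ ((d.hT j).mem y hy)]

lemma eta_mul (j : ℕ) : ∀ b ∈ perfectClosure (KK p) Ω, ∀ x ∈ EE p Ω d.a j,
    eta d.T j (b * x) = b * eta d.T j x := by
  induction j with
  | zero =>
    intro b _ x _
    rfl
  | succ j ih =>
    intro b hb x hx
    change eta d.T j (d.T j (b * x)) = b * eta d.T j (d.T j x)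
    rw [(d.hT j).mul b (zero_EE p Ω d.a j b hb) x hx, ih b hb _ ((d.hT j).mem x hx)]

lemma eta_mem (j : ℕ) : ∀ x ∈ EE p Ω d.a j, eta d.T j x ∈ perfectClosure (KK p) Ω := by
  induction j with
  | zero =>
    intro x hx
    exact hx
  | succ j ih =>
    intro x hx
    exact ih _ ((d.hT j).mem x hx)

lemma eta_succ (j : ℕ) (x : Ω) (hx : x ∈ EE p Ω d.a j) : eta d.T (j + 1) x = eta d.T j x := by
  change eta d.T j (d.T j x) = _
  have h := (d.hT j).mul x hx 1 (one_mem _)
  rw [mul_one, (d.hT j).one, mul_one] at h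
  rw [h]

lemma RR_mul (j : ℕ) : ∀ f g, RR p d.C j (f ^ p ^ sm d.e j * g) = f * RR p d.C j g := by
  induction j with
  | zero =>
    intro f g
    change f ^ p ^ 0 * g = f * g
    rw [pow_zero, pow_one]
  | succ j ih =>
    intro f g
    change RR p d.C j (d.C j (f ^ p ^ (sm d.e j + d.e j) * g)) = f * RR p d.C j (d.C j g)
    rw [pow_add, pow_mul, d.hC, ih]

lemma Val_succ (j : ℕ) (x : Ω) (y : Lam p) (h : Val d j x y) : Val d (j + 1) x y := by
  obtain ⟨hx, F, hF, hy⟩ := h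
  refine ⟨le_EE p Ω _ _ _ hx, F ^ p ^ d.e j * d.c j, ?_, ?_⟩
  · rw [eta_succ d j x hx, map_mul, map_pow, hF]
    change _ = algebraMap (Lam p) Ω (GG p d.c d.e j ^ p ^ d.e j * d.c j) *
      eta d.T j x ^ p ^ (sm d.e j + d.e j)
    rw [map_mul, map_pow, mul_pow, pow_add p, pow_mul]
    ring
  · change y = RR p d.C j (d.C j (F ^ p ^ d.e j * d.c j))
    rw [d.hC, d.hC1, mul_one, hy]

lemma Val_le (j k : ℕ) (hjk : j ≤ k) (x : Ω) (y : Lam p) (h : Val d j x y) : Val d k x y := by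
  induction k, hjk using Nat.le_induction with
  | base => exact h
  | succ k _ ih => exact Val_succ d k x y ih

lemma Val_uniq (j k : ℕ) (x : Ω) (y y' : Lam p) (h : Val d j x y) (h' : Val d k x y') : y = y' := by
  obtain ⟨_, F, hF, hy⟩ := Val_le d j (max j k) (le_max_left _ _) x y h
  obtain ⟨_, F', hF', hy'⟩ := Val_le d k (max j k) (le_max_right _ _) x y' h'
  have : F = F' := algInj (Ω := Ω) (by rw [hF, hF'])
  rw [hy, hy', this]

lemma Val_add (j k : ℕ) (x x' : Ω) (y y' : Lam p) (h : Val d j x y) (h' : Val d k x' y') :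
    Val d (max j k) (x + x') (y + y') := by
  have : CharP Ω p := charP_Om p Ω
  obtain ⟨hx, F, hF, hy⟩ := Val_le d j (max j k) (le_max_left _ _) x y h
  obtain ⟨hx', F', hF', hy'⟩ := Val_le d k (max j k) (le_max_right _ _) x' y' h'
  refine ⟨add_mem hx hx', F + F', ?_, ?_⟩
  · rw [eta_add d _ x hx x' hx', add_pow_char_pow, map_add, hF, hF', mul_add]
  · rw [map_add, hy, hy']

lemma Val_smul (j : ℕ) (x : Ω) (f y : Lam p) (h : Val d j x y) :
    Val d j (algebraMap (Lam p) Ω f * x) (f * y) := by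
  obtain ⟨hx, F, hF, hy⟩ := h
  have hf : algebraMap (Lam p) Ω f ∈ perfectClosure (KK p) Ω := by
    rw [IsScalarTower.algebraMap_apply (Lam p) (KK p) Ω]
    exact _root_.algebraMap_mem _ _
  refine ⟨mul_mem (zero_EE p Ω _ _ _ hf) hx, f ^ p ^ sm d.e j * F, ?_, ?_⟩
  · rw [eta_mul d j _ hf x hx, map_mul, map_pow, hF, mul_pow]
    ring
  · rw [RR_mul, hy]

lemma Val_one : Val d 0 1 1 := by
  refine ⟨one_mem _, 1, ?_, rfl⟩
  change _ = algebraMap (Lam p) Ω 1 * (1 : Ω) ^ p ^ 0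
  rw [one_pow, mul_one]

lemma gg_mem (j : ℕ) : gg d.v j ∈ perfectClosure (KK p) Ω := by
  induction j with
  | zero => exact one_mem _
  | succ j ih => exact mul_mem ih (d.hv0 j)

lemma gg_pow (j : ℕ) : gg d.v j ^ p ^ sm d.e j = algebraMap (Lam p) Ω (GG p d.c d.e j) := by
  induction j with
  | zero =>
    change (1 : Ω) ^ p ^ 0 = algebraMap (Lam p) Ω 1
    rw [one_pow, map_one]
  | succ j ih =>
    change (gg d.v j * d.v j) ^ p ^ sm d.e (j + 1) = algebraMap (Lam p) Ω (GG p d.c d.e j ^ p ^ d.e j * d.c j)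
    rw [mul_pow, d.hv, map_mul, map_pow, ← ih, ← pow_mul]
    change gg d.v j ^ p ^ (sm d.e j + d.e j) * _ = _
    rw [pow_add]

lemma int_eta (j : ℕ) : ∀ x ∈ EE p Ω d.a j, IsIntegral (Lam p) x →
    IsIntegral (Lam p) (gg d.v j * eta d.T j x) := by
  induction j with
  | zero =>
    intro x _ hx
    change IsIntegral (Lam p) (1 * x)
    rwa [one_mul]
  | succ j ih =>
    intro x hx hi
    have h1 : gg d.v (j + 1) * eta d.T (j + 1) x = gg d.v j * eta d.T j (d.v j * d.T j x) := by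
      rw [eta_mul d j _ (d.hv0 j) _ ((d.hT j).mem x hx)]
      change gg d.v j * d.v j * eta d.T j (d.T j x) = _
      ring
    rw [h1]
    exact ih _ (mul_mem (zero_EE p Ω _ _ _ (d.hv0 j)) ((d.hT j).mem x hx)) ((d.hT j).int x hx hi)

lemma pow_mem_of_int (z : Ω) (hz : z ∈ perfectClosure (KK p) Ω) (hi : IsIntegral (Lam p) z) :
    ∃ N : ℕ, ∃ F : Lam p, algebraMap (Lam p) Ω F = z ^ p ^ N := by
  have : ExpChar (KK p) p := ExpChar.prime Fact.out
  rw [mem_perfectClosure_iff_pow_mem p] at hz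
  obtain ⟨N, u, hu⟩ := hz
  have h1 : IsIntegral (Lam p) u := by
    have h2 : IsIntegral (Lam p) (algebraMap (KK p) Ω u) := by
      have : algebraMap (KK p) Ω u = z ^ p ^ N := hu
      rw [this]
      exact hi.pow _
    exact (isIntegral_algebraMap_iff (algebraMap (KK p) Ω).injective).1 h2
  obtain ⟨F, hF⟩ := IsIntegrallyClosed.isIntegral_iff.1 h1
  refine ⟨N, F, ?_⟩
  rw [IsScalarTower.algebraMap_apply (Lam p) (KK p) Ω, hF]
  exact hu

lemma le_sm (j : ℕ) : j ≤ sm d.e j := by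
  induction j with
  | zero => exact Nat.zero_le _
  | succ j ih =>
    have := d.he j
    change j + 1 ≤ sm d.e j + d.e j
    omega

lemma sm_le (j : ℕ) : sm d.e j ≤ sm d.e (j + 1) := Nat.le_add_right _ _

lemma sm_mono {i j : ℕ} (h : i ≤ j) : sm d.e i ≤ sm d.e j :=
  monotone_nat_of_le_succ (sm_le d) h

lemma EE_mono {i j : ℕ} (h : i ≤ j) (x : Ω) (hx : x ∈ EE p Ω d.a i) : x ∈ EE p Ω d.a j := by
  induction j, h using Nat.le_induction with
  | base => exact hx
  | succ k _ ih => exact le_EE p Ω _ _ _ ih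

lemma exists_Val (x : Ω) (hi : IsIntegral (Lam p) x) : ∃ j y, Val d j x y := by
  obtain ⟨j0, hj0⟩ := d.ha x
  have hx : x ∈ EE p Ω d.a (j0 + 1) := by
    rw [← hj0]
    exact self_nxt p Ω _ _
  set j := j0 + 1 with hj
  obtain ⟨N, F, hF⟩ := pow_mem_of_int (gg d.v j * eta d.T j x)
    (mul_mem (gg_mem d j) (eta_mem d j x hx)) (int_eta d j x hx hi)
  -- all later levels
  have key : ∀ i, j ≤ i → ∀ M, N ≤ M → sm d.e i ≤ M →
      ∃ F : Lam p, algebraMap (Lam p) Ω F = (gg d.v i * eta d.T i x) ^ p ^ M := by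
    intro i hij
    induction i, hij using Nat.le_induction with
    | base =>
      intro M hM _
      refine ⟨F ^ p ^ (M - N), ?_⟩
      rw [map_pow, hF, ← pow_mul, ← pow_add]
      congr 2
      omega
    | succ i hij ih =>
      intro M hM hM2
      obtain ⟨F', hF'⟩ := ih M hM (le_trans (sm_le d i) hM2)
      refine ⟨d.c i ^ p ^ (M - sm d.e (i + 1)) * F', ?_⟩
      rw [map_mul, map_pow, ← d.hv i, hF', eta_succ d i x (EE_mono d hij x hx)]
      change _ = (gg d.v i * d.v i * eta d.T i x) ^ p ^ M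
      rw [← pow_mul, ← pow_add]
      have : sm d.e (i + 1) + (M - sm d.e (i + 1)) = M := by omega
      rw [this]
      ring
  set i := j + N with hi2
  obtain ⟨F', hF'⟩ := key i (by omega) (sm d.e i) (le_trans (by omega) (le_sm d i)) le_rfl
  refine ⟨i, RR p d.C i F', EE_mono d (by omega) x hx, F', ?_, rfl⟩
  rw [hF', mul_pow, gg_pow]

variable (p Ω)

/-- The absolute integral closure of the polynomial ring retracts onto the polynomial ring. -/
theorem exists_retraction : ∃ Φ : (integralClosure (Lam p) Ω) →ₗ[Lam p] Lam p, Φ 1 = 1 := by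
  obtain ⟨d⟩ := exists_data p Ω
  choose j y hV using fun x : integralClosure (Lam p) Ω => exists_Val d x.1 x.2
  refine ⟨{ toFun := y, map_add' := ?_, map_smul' := ?_ }, ?_⟩
  · intro a b
    exact Val_uniq d _ _ _ _ _ (hV (a + b)) (Val_add d _ _ _ _ _ _ (hV a) (hV b))
  · intro f a
    have h1 : ((f • a : integralClosure (Lam p) Ω) : Ω) = algebraMap (Lam p) Ω f * a.1 := by
      rw [← Algebra.smul_def]
      rfl
    have h2 := hV (f • a)
    rw [h1] at h2
    exact Val_uniq d _ _ _ _ _ h2 (Val_smul d _ _ _ _ (hV a))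
  · exact Val_uniq d _ _ _ _ _ (hV 1) (Val_one d)

end Pool.Agent.H215R3.SP
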