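import Pool.Agent.H215R3.SP.Base
import Pool.Agent.H215R3.DF.Noeth

/-!
# The pinched ring is a Noetherian local domain
-/

set_option autoImplicit false

namespace Pool.Agent.H215R3.SP

variable (p : ℕ) [Fact p.Prime]

/-- the pinched ring: the two places agree -/
noncomputable def AA : Subring (BB p) := e1.eqLocus e4

variable {p}

lemma mem_AA (z : BB p) : z ∈ AA p ↔ e1 z = e4 z := Iff.rfl

noncomputable def sg (u : KK p) : BB p := (exists_e u u).choose

lemma sg_spec (u : KK p) : e1 (sg u) = u ∧ e4 (sg u) = u := (exists_e u u).choose_spec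

lemma sg_mem (u : KK p) : sg u ∈ AA p := by
  rw [mem_AA, (sg_spec u).1, (sg_spec u).2]

lemma decomp (z : BB p) : ∃ r r' : AA p, z = r.1 + r'.1 * w := by
  obtain ⟨h1, h4⟩ := sg_spec (e1 z - e4 z)
  refine ⟨⟨z - sg (e1 z - e4 z) * w, ?_⟩, ⟨_, sg_mem (e1 z - e4 z)⟩, by ring⟩
  rw [mem_AA, map_sub, map_mul, map_sub, map_mul, h1, h4, e1_w, e4_w]
  ring

instance : Module.Finite (AA p) (BB p) := by
  classical
  refine ⟨⟨({1, w} : Finset (BB p)), ?_⟩⟩
  rw [eq_top_iff]
  intro z _
  obtain ⟨r, r', hr⟩ := decomp z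
  have h0 : ∀ (r : AA p) (x : BB p), r • x = r.1 * x := fun _ _ => rfl
  rw [hr]
  refine Submodule.add_mem _ ?_ ?_
  · have : r.1 = r • (1 : BB p) := by rw [h0, mul_one]
    rw [this]
    exact Submodule.smul_mem _ _ (Submodule.subset_span (by simp))
  · rw [← h0]
    exact Submodule.smul_mem _ _ (Submodule.subset_span (by simp))

instance : IsNoetherianRing (AA p) := by
  have n1 : IsNoetherian (AA p) (BB p ⧸ RingHom.ker (e1 (p := p))) := DF.noeth_quot (AA p) e1
    (fun c => ⟨⟨sg (e1 c), sg_mem _⟩, (sg_spec (e1 c)).1⟩)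
  have n4 : IsNoetherian (AA p) (BB p ⧸ RingHom.ker (e4 (p := p))) := DF.noeth_quot (AA p) e4
    (fun c => ⟨⟨sg (e4 c), sg_mem _⟩, (sg_spec (e4 c)).2⟩)
  refine DF.noethRing_of (AA p) (RingHom.ker e1 ⊓ RingHom.ker e4) ?_ (DF.noeth_inf (AA p) _ _ n1 n4)
  rintro x ⟨h1, h4⟩
  have h1' : e1 x = 0 := h1
  have h4' : e4 x = 0 := h4
  rw [mem_AA, h1', h4']

instance : IsDomain (AA p) := inferInstance

lemma isUnit_AA (h : AA p) : IsUnit h ↔ e1 h.1 ≠ 0 := by
  constructor
  · intro hu
    have := (hu.map (AA p).subtype).map e1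
    exact this.ne_zero
  · intro hne
    have hR : e1 h.1 = e4 h.1 := h.2
    have h2 : IsUnit h.1 := isUnit_BB _ hne (by rw [← hR]; exact hne)
    obtain ⟨g, hg⟩ := h2.exists_right_inv
    have hgR : g ∈ AA p := by
      rw [mem_AA]
      have e1' : e1 h.1 * e1 g = 1 := by rw [← map_mul, hg, map_one]
      have e3' : e4 h.1 * e4 g = 1 := by rw [← map_mul, hg, map_one]
      rw [← hR] at e3'
      calc e1 g = e1 g * (e1 h.1 * e4 g) := by rw [e3', mul_one]
        _ = (e1 h.1 * e1 g) * e4 g := by ring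
        _ = e4 g := by rw [e1', one_mul]
    exact IsUnit.of_mul_eq_one (⟨g, hgR⟩ : AA p) (Subtype.ext hg)

instance : IsLocalRing (AA p) := by
  refine IsLocalRing.of_isUnit_or_isUnit_one_sub_self ?_
  intro h
  rw [isUnit_AA, isUnit_AA]
  by_cases h0 : e1 h.1 = 0
  · right
    have : ((1 - h : AA p) : BB p) = 1 - h.1 := rfl
    rw [this, map_sub, map_one, h0, sub_zero]
    exact one_ne_zero
  · left
    exact h0

instance : CharP (BB p) p := charP_of_injective_algebraMap (inj p) p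

instance : CharP (AA p) p := by
  refine ⟨fun x => ?_⟩
  have hinj : Function.Injective (AA p).subtype := Subtype.val_injective
  rw [← CharP.cast_eq_zero_iff (BB p) p, ← map_natCast (AA p).subtype, map_eq_zero_iff _ hinj]

end Pool.Agent.H215R3.SP
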