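import Pool.Agent.H215R3.SP.Cat
import Pool.Agent.H215R3.SP.Phi

/-!
# The absolute integral closure of the pinched ring is solid
-/

set_option autoImplicit false

namespace Pool.Agent.H215R3.SP

variable (p : ℕ) [Fact p.Prime]

/-- a retraction, as a function on the whole algebraic closure -/
theorem exists_fun : ∃ Φ : AlgebraicClosure (KK p) → Lam p,
    (∀ x y, IsIntegral (Lam p) x → IsIntegral (Lam p) y → Φ (x + y) = Φ x + Φ y) ∧
    (∀ (f : Lam p) x, IsIntegral (Lam p) x →
      Φ (algebraMap (Lam p) (AlgebraicClosure (KK p)) f * x) = f * Φ x) ∧ Φ 1 = 1 := by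
  classical
  obtain ⟨Φ, h⟩ := exists_retraction p (AlgebraicClosure (KK p))
  let Φ' : AlgebraicClosure (KK p) → Lam p := fun x =>
    if hx : x ∈ integralClosure (Lam p) (AlgebraicClosure (KK p)) then Φ ⟨x, hx⟩ else 0
  have h1 : ∀ x (hx : x ∈ integralClosure (Lam p) (AlgebraicClosure (KK p))), Φ' x = Φ ⟨x, hx⟩ :=
    fun x hx => dif_pos hx
  refine ⟨Φ', ?_, ?_, ?_⟩
  · intro x y hx hy
    have hx' : x ∈ integralClosure (Lam p) (AlgebraicClosure (KK p)) := hx
    have hy' : y ∈ integralClosure (Lam p) (AlgebraicClosure (KK p)) := hy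
    rw [h1 x hx', h1 y hy', h1 (x + y) (add_mem hx' hy'), ← map_add]
    rfl
  · intro f x hx
    have hx' : x ∈ integralClosure (Lam p) (AlgebraicClosure (KK p)) := hx
    have h2 : algebraMap (Lam p) (AlgebraicClosure (KK p)) f * x ∈
        integralClosure (Lam p) (AlgebraicClosure (KK p)) :=
      mul_mem (algebraMap_mem _ f) hx'
    have h3 := Φ.map_smul f ⟨x, hx'⟩
    rw [smul_eq_mul] at h3
    rw [h1 x hx', h1 _ h2, ← h3]
    congr 1
    apply Subtype.ext
    change algebraMap (Lam p) (AlgebraicClosure (KK p)) f * x = f • x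
    rw [Algebra.smul_def]
  · rw [h1 1 (one_mem _)]
    exact h

/-- the inclusion of the semilocal ring in the algebraic closure -/
noncomputable def rho : BB p →+* AlgebraicClosure (KK p) := (algebraMap (KK p) _).comp iota

variable {p}

lemma rho_alg (f : Lam p) : rho p (algebraMap (Lam p) (BB p) f) =
    algebraMap (Lam p) (AlgebraicClosure (KK p)) f := by
  rw [rho, RingHom.comp_apply, iota_alg, ← IsScalarTower.algebraMap_apply]

/-- the relation defining the extended retraction -/
def Rel (Φ : AlgebraicClosure (KK p) → Lam p) (x : AlgebraicClosure (KK p)) (β : BB p) : Prop :=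
  ∃ t ∈ S p, IsIntegral (Lam p) (algebraMap (Lam p) (AlgebraicClosure (KK p)) t * x) ∧
    algebraMap (Lam p) (BB p) t * β =
      algebraMap (Lam p) (BB p) (Φ (algebraMap (Lam p) (AlgebraicClosure (KK p)) t * x))

lemma exists_Rel (Φ : AlgebraicClosure (KK p) → Lam p) (x : AlgebraicClosure (KK p))
    (hx : (rho p).IsIntegralElem x) : ∃ β, Rel Φ x β := by
  letI : Algebra (BB p) (AlgebraicClosure (KK p)) := (rho p).toAlgebra
  have : IsScalarTower (Lam p) (BB p) (AlgebraicClosure (KK p)) :=
    IsScalarTower.of_algebraMap_eq (R := Lam p) (S := BB p) (A := AlgebraicClosure (KK p))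
      (fun f => (rho_alg f).symm)
  obtain ⟨t, ht⟩ := IsIntegral.exists_multiple_integral_of_isLocalization (S p) (Rₘ := BB p) x hx
  have h1 : t • x = algebraMap (Lam p) (AlgebraicClosure (KK p)) t.1 * x := by
    rw [Submonoid.smul_def, Algebra.smul_def]
  rw [h1] at ht
  obtain ⟨u, hu⟩ := unitS t.1 t.2
  refine ⟨((u⁻¹ : (BB p)ˣ) : BB p) * algebraMap (Lam p) (BB p)
    (Φ (algebraMap (Lam p) (AlgebraicClosure (KK p)) t.1 * x)), t.1, t.2, ht, ?_⟩
  rw [← hu, ← mul_assoc, Units.mul_inv, one_mul]

section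
variable (Φ : AlgebraicClosure (KK p) → Lam p)
  (hadd : ∀ x y, IsIntegral (Lam p) x → IsIntegral (Lam p) y → Φ (x + y) = Φ x + Φ y)
  (hmul : ∀ (f : Lam p) x, IsIntegral (Lam p) x →
      Φ (algebraMap (Lam p) (AlgebraicClosure (KK p)) f * x) = f * Φ x)

include hmul in
lemma Rel_uniq (x : AlgebraicClosure (KK p)) (β β' : BB p) (h : Rel Φ x β) (h' : Rel Φ x β') :
    β = β' := by
  obtain ⟨t, ht, hi, h⟩ := h
  obtain ⟨t', ht', hi', h'⟩ := h'
  have h1 := hmul t' _ hi
  have h2 := hmul t _ hi'
  have h3 : algebraMap (Lam p) (AlgebraicClosure (KK p)) t' *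
      (algebraMap (Lam p) (AlgebraicClosure (KK p)) t * x) =
      algebraMap (Lam p) (AlgebraicClosure (KK p)) t *
      (algebraMap (Lam p) (AlgebraicClosure (KK p)) t' * x) := by ring
  rw [h3] at h1
  have h4 := h1.symm.trans h2
  have h5 := congrArg (algebraMap (Lam p) (BB p)) h4
  rw [map_mul, map_mul, ← h, ← h'] at h5
  have h6 : (algebraMap (Lam p) (BB p) t' * algebraMap (Lam p) (BB p) t) * β =
      (algebraMap (Lam p) (BB p) t' * algebraMap (Lam p) (BB p) t) * β' := by
    linear_combination h5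
  exact mul_left_cancel₀ (mul_ne_zero (alg_ne t' ht') (alg_ne t ht)) h6

include hadd hmul in
lemma Rel_add (x x' : AlgebraicClosure (KK p)) (β β' : BB p) (h : Rel Φ x β) (h' : Rel Φ x' β') :
    Rel Φ (x + x') (β + β') := by
  obtain ⟨t, ht, hi, h⟩ := h
  obtain ⟨t', ht', hi', h'⟩ := h'
  have h1 := hmul t' _ hi
  have h2 := hmul t _ hi'
  have i1 : IsIntegral (Lam p) (algebraMap (Lam p) (AlgebraicClosure (KK p)) t' *
    (algebraMap (Lam p) (AlgebraicClosure (KK p)) t * x)) := isIntegral_algebraMap.mul hi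
  have i2 : IsIntegral (Lam p) (algebraMap (Lam p) (AlgebraicClosure (KK p)) t *
    (algebraMap (Lam p) (AlgebraicClosure (KK p)) t' * x')) := isIntegral_algebraMap.mul hi'
  have h3 : algebraMap (Lam p) (AlgebraicClosure (KK p)) (t * t') * (x + x') =
      algebraMap (Lam p) (AlgebraicClosure (KK p)) t' *
      (algebraMap (Lam p) (AlgebraicClosure (KK p)) t * x) +
      algebraMap (Lam p) (AlgebraicClosure (KK p)) t *
      (algebraMap (Lam p) (AlgebraicClosure (KK p)) t' * x') := by
    rw [map_mul]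
    ring
  refine ⟨t * t', (S p).mul_mem ht ht', ?_, ?_⟩
  · rw [h3]
    exact i1.add i2
  · rw [h3, hadd _ _ i1 i2, h1, h2, map_mul, map_add, map_mul, map_mul, ← h, ← h']
    ring

include hmul in
lemma Rel_mul (z : BB p) (x : AlgebraicClosure (KK p)) (β : BB p) (h : Rel Φ x β) :
    Rel Φ (rho p z * x) (z * β) := by
  obtain ⟨t, ht, hi, h⟩ := h
  obtain ⟨a, f, hf, hz⟩ := exists_frac z
  have h1 := hmul a _ hi
  have h3 : algebraMap (Lam p) (AlgebraicClosure (KK p)) (f * t) * (rho p z * x) =
      algebraMap (Lam p) (AlgebraicClosure (KK p)) a *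
      (algebraMap (Lam p) (AlgebraicClosure (KK p)) t * x) := by
    rw [map_mul, ← rho_alg a, ← hz, map_mul, rho_alg]
    ring
  refine ⟨f * t, (S p).mul_mem hf ht, ?_, ?_⟩
  · rw [h3]
    exact isIntegral_algebraMap.mul hi
  · rw [h3, h1, map_mul, map_mul, ← h, ← hz]
    ring

lemma Rel_one (hone : Φ 1 = 1) : Rel Φ 1 1 := by
  refine ⟨1, (S p).one_mem, ?_, ?_⟩
  · rw [map_one, mul_one]
    exact isIntegral_one
  · rw [map_one, map_one, mul_one, mul_one, hone, map_one]

end

lemma c0_mul_mem (β : BB p) : (c0 p).1 * β ∈ AA p := by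
  rw [mem_AA, c0_val, map_mul, map_mul, map_mul, map_mul, map_sub, map_sub, e1_w, e4_w, map_one,
    map_one]
  ring

lemma rho_inj : Function.Injective (rho p) := by
  intro a b h
  exact iota_inj ((algebraMap (KK p) (AlgebraicClosure (KK p))).injective h)

lemma isAlg_abs {R A B Ω : Type} [CommRing R] [CommRing A] [CommRing B] [Field Ω] [IsDomain A]
    [IsDomain B] [Algebra R B] [Algebra A B] [Algebra B Ω] [Algebra R Ω] [Algebra A Ω]
    [IsScalarTower R B Ω] [IsScalarTower A B Ω] (hinj : Function.Injective (algebraMap R B))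
    [Module.Finite A B] [Algebra.IsAlgebraic R Ω] : Algebra.IsAlgebraic A Ω := by
  have h1 : Algebra.IsAlgebraic B Ω := Algebra.IsAlgebraic.extendScalars hinj
  have h2 : Algebra.IsAlgebraic A B := inferInstance
  exact Algebra.IsAlgebraic.trans A B Ω

lemma isAlg_AA : @Algebra.IsAlgebraic (AA p) (AlgebraicClosure (KK p)) _ _
    ((rho p).comp (AA p).subtype).toAlgebra := by
  let _ : Algebra (AA p) (AlgebraicClosure (KK p)) := ((rho p).comp (AA p).subtype).toAlgebra
  let _ : Algebra (BB p) (AlgebraicClosure (KK p)) := (rho p).toAlgebra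
  have i1 : IsScalarTower (Lam p) (BB p) (AlgebraicClosure (KK p)) :=
    IsScalarTower.of_algebraMap_eq (R := Lam p) (S := BB p) (A := AlgebraicClosure (KK p))
      (fun f => (rho_alg f).symm)
  have i2 : IsScalarTower (AA p) (BB p) (AlgebraicClosure (KK p)) :=
    IsScalarTower.of_algebraMap_eq (R := AA p) (S := BB p) (A := AlgebraicClosure (KK p))
      (fun f => rfl)
  have i3 : Algebra.IsAlgebraic (Lam p) (AlgebraicClosure (KK p)) := by
    have : Algebra.IsAlgebraic (Lam p) (KK p) :=
      IsLocalization.isAlgebraic (KK p) (nonZeroDivisors (Lam p))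
    exact Algebra.IsAlgebraic.trans (Lam p) (KK p) _
  exact isAlg_abs (R := Lam p) (A := AA p) (B := BB p) (inj p)

variable (p) in
/-- There is a nonzero linear map from the absolute integral closure of the pinched ring to the
pinched ring. -/
theorem solid : IsSolidPlus (AA p) := by
  intro Ω _ _ _ _ hΩ
  letI : Algebra (AA p) (AlgebraicClosure (KK p)) := ((rho p).comp (AA p).subtype).toAlgebra
  have halg : ∀ z : AA p, algebraMap (AA p) (AlgebraicClosure (KK p)) z = rho p z.1 := fun _ => rfl
  have hinj : Function.Injective (algebraMap (AA p) (AlgebraicClosure (KK p))) := by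
    intro a b h
    exact Subtype.ext (rho_inj h)
  obtain ⟨Φ, hadd, hmul, hone⟩ := exists_fun p
  -- the map on the integral closure in the algebraic closure of `KK p`
  have hint : ∀ x : integralClosure (AA p) (AlgebraicClosure (KK p)), (rho p).IsIntegralElem x.1 := by
    intro x
    obtain ⟨f, hf, hfx⟩ := x.2
    refine ⟨f.map (AA p).subtype, hf.map _, ?_⟩
    rw [Polynomial.eval₂_map]
    exact hfx
  choose β hβ using fun x : integralClosure (AA p) (AlgebraicClosure (KK p)) =>
    exists_Rel Φ x.1 (hint x)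
  let φ : integralClosure (AA p) (AlgebraicClosure (KK p)) →ₗ[AA p] AA p :=
    { toFun := fun x => ⟨(c0 p).1 * β x, c0_mul_mem _⟩
      map_add' := by
        intro x y
        apply Subtype.ext
        change (c0 p).1 * β (x + y) = (c0 p).1 * β x + (c0 p).1 * β y
        rw [Rel_uniq Φ hmul _ _ _ (hβ (x + y)) (Rel_add Φ hadd hmul _ _ _ _ (hβ x) (hβ y)), mul_add]
      map_smul' := by
        intro z x
        apply Subtype.ext
        change (c0 p).1 * β (z • x) = z.1 * ((c0 p).1 * β x)
        have h1 : ((z • x : integralClosure (AA p) (AlgebraicClosure (KK p))) :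
            AlgebraicClosure (KK p)) = rho p z.1 * x.1 := by
          rw [← halg, ← Algebra.smul_def]
          rfl
        have h2 := hβ (z • x)
        rw [h1] at h2
        rw [Rel_uniq Φ hmul _ _ _ h2 (Rel_mul Φ hmul z.1 _ _ (hβ x))]
        ring }
  have hφ : φ 1 ≠ 0 := by
    intro h
    have h1 : (c0 p).1 * β 1 = 0 := congrArg Subtype.val h
    have h2 : β 1 = 1 := Rel_uniq Φ hmul _ _ _ (hβ 1) (Rel_one Φ hone)
    rw [h2, mul_one] at h1
    exact c0_ne (Subtype.ext h1)
  -- transport
  have : FaithfulSMul (AA p) (AlgebraicClosure (KK p)) :=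
    (faithfulSMul_iff_algebraMap_injective _ _).2 hinj
  have hcl1 : IsAlgClosure (AA p) (AlgebraicClosure (KK p)) :=
    ⟨inferInstance, isAlg_AA⟩
  have : FaithfulSMul (AA p) Ω := (faithfulSMul_iff_algebraMap_injective _ _).2 hΩ
  have hcl2 : IsAlgClosure (AA p) Ω := ⟨inferInstance, inferInstance⟩
  let e := IsAlgClosure.equiv (AA p) Ω (AlgebraicClosure (KK p))
  refine ⟨φ.comp e.mapIntegralClosure.toLinearMap, ?_⟩
  intro h
  apply hφ
  have := congrArg (fun ψ => ψ 1) h
  simp only [LinearMap.comp_apply, AlgEquiv.toLinearMap_apply, map_one, LinearMap.zero_apply] at this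
  exact this

end Pool.Agent.H215R3.SP
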