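import Mathlib

/-!
# One step of the tower: traces which are the identity on the small field and almost integral
-/

set_option autoImplicit false

namespace Pool.Agent.H215R3.SP

open IntermediateField

theorem exists_trace {R F Ω : Type} [CommRing R] [IsDomain R] [Field F] [Field Ω] [Algebra F Ω] [Algebra R F]
    [Algebra R Ω] [IsScalarTower R F Ω] (p : ℕ) [Fact p.Prime] [CharP F p] [PerfectField F]
    [Algebra.IsAlgebraic R Ω] (a : Ω) (ha : IsAlgebraic F a) :
    ∃ c : R, c ≠ 0 ∧ ∀ n : ℕ, ∃ T : (adjoin F {a}) →ₗ[F] F, T 1 = 1 ∧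
      ∀ v : F, v ^ p ^ n = algebraMap R F c → ∀ x : adjoin F {a}, IsIntegral R x →
        IsIntegral R (v * T x) := by
  have : FiniteDimensional F (adjoin F {a}) := adjoin.finiteDimensional ha.isIntegral
  have : CharP (adjoin F {a}) p := charP_of_injective_algebraMap (algebraMap F _).injective p
  have : PerfectField (adjoin F {a}) := Algebra.IsAlgebraic.perfectField F
  have : ExpChar F p := ExpChar.prime Fact.out
  have : ExpChar (adjoin F {a}) p := ExpChar.prime Fact.out
  have : PerfectRing F p := PerfectField.toPerfectRing p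
  have : PerfectRing (adjoin F {a}) p := PerfectField.toPerfectRing p
  have : IsScalarTower R (adjoin F {a}) Ω := IsScalarTower.of_algebraMap_eq (fun _ => rfl)
  obtain ⟨w, hw⟩ := Algebra.trace_surjective F (adjoin F {a}) 1
  have hwa : IsAlgebraic R w := by
    have h1 : IsAlgebraic R (w : Ω) := Algebra.IsAlgebraic.isAlgebraic _
    exact (isAlgebraic_algebraMap_iff (A := Ω) Subtype.val_injective).1 h1
  obtain ⟨c, hc, hcw⟩ := hwa.exists_integral_multiple
  refine ⟨c, hc, fun n => ?_⟩
  set wn := (iterateFrobeniusEquiv (adjoin F {a}) p n).symm w with hwn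
  have hwn' : wn ^ p ^ n = w := by
    have : iterateFrobeniusEquiv (adjoin F {a}) p n wn = w := by
      rw [hwn, RingEquiv.apply_symm_apply]
    rwa [iterateFrobeniusEquiv_apply, iterateFrobenius_def] at this
  have htr : Algebra.trace F (adjoin F {a}) wn = 1 := by
    rw [Algebra.trace_eq_of_equiv_equiv (iterateFrobeniusEquiv F p n)
      (iterateFrobeniusEquiv (adjoin F {a}) p n)]
    · rw [hwn, RingEquiv.apply_symm_apply, hw, map_one]
    · ext x
      simp [iterateFrobenius_def]
  refine ⟨(Algebra.trace F (adjoin F {a})).comp (LinearMap.mulLeft F wn), ?_, ?_⟩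
  · rw [LinearMap.comp_apply, LinearMap.mulLeft_apply, mul_one, htr]
  · intro v hv x hx
    rw [LinearMap.comp_apply, LinearMap.mulLeft_apply, ← smul_eq_mul, ← map_smul]
    apply Algebra.isIntegral_trace
    have h1 : v • (wn * x) = (v • wn) * x := (smul_mul_assoc v wn x).symm
    rw [h1]
    apply IsIntegral.mul _ hx
    have h2 : (v • wn) ^ p ^ n = c • w := by
      rw [smul_pow, hv, hwn', algebraMap_smul]
    apply IsIntegral.of_pow (pow_pos (Fact.out : p.Prime).pos n)
    rw [h2]
    exact hcw

end Pool.Agent.H215R3.SP
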