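import Pool.Agent.H215R3.SP.Cart
import Pool.Agent.H215R3.SP.Step

/-!
# The tower and the retraction
-/

set_option autoImplicit false

namespace Pool.Agent.H215R3.SP

open IntermediateField

variable (p : ℕ) [Fact p.Prime]

/-- the rational function field in countably many variables -/
abbrev KK := FractionRing (Lam p)

variable (Ω : Type) [Field Ω] [Algebra (KK p) Ω] [IsAlgClosure (KK p) Ω] [Algebra (Lam p) Ω]
  [IsScalarTower (Lam p) (KK p) Ω]

/-- one step of the tower -/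
structure IsStep (E E' : IntermediateField (KK p) Ω) (v : Ω) (T : Ω → Ω) : Prop where
  mem : ∀ x ∈ E', T x ∈ E
  add : ∀ x ∈ E', ∀ y ∈ E', T (x + y) = T x + T y
  mul : ∀ a ∈ E, ∀ x ∈ E', T (a * x) = a * T x
  one : T 1 = 1
  int : ∀ x ∈ E', IsIntegral (Lam p) x → IsIntegral (Lam p) (v * T x)

/-- adjoin one element -/
noncomputable def nxt (E : IntermediateField (KK p) Ω) (a : Ω) : IntermediateField (KK p) Ω :=
  (adjoin E {a}).restrictScalars (KK p)

instance : CharP (KK p) p := charP_of_injective_algebraMap (IsFractionRing.injective (Lam p) (KK p)) p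

omit [IsAlgClosure (KK p) Ω] [Algebra (Lam p) Ω] [IsScalarTower (Lam p) (KK p) Ω] in
include p in
lemma charP_Om : CharP Ω p := charP_of_injective_algebraMap (algebraMap (KK p) Ω).injective p

omit [Algebra (Lam p) Ω] [IsScalarTower (Lam p) (KK p) Ω] in
lemma nxt_perfect (E : IntermediateField (KK p) Ω) (hE : PerfectField E) (a : Ω) :
    PerfectField (nxt p Ω E a) := by
  have : Algebra.IsAlgebraic (KK p) Ω := IsAlgClosure.isAlgebraic
  have : Algebra.IsAlgebraic E Ω := Algebra.IsAlgebraic.tower_top (K := KK p) E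
  have : PerfectField (adjoin E {a}) := Algebra.IsAlgebraic.perfectField E
  exact this

omit [Algebra (Lam p) Ω] [IsScalarTower (Lam p) (KK p) Ω] [IsAlgClosure (KK p) Ω] in
lemma mem_nxt (E : IntermediateField (KK p) Ω) (a x : Ω) : x ∈ nxt p Ω E a ↔ x ∈ adjoin E {a} :=
  mem_restrictScalars (KK p)

omit [Algebra (Lam p) Ω] [IsScalarTower (Lam p) (KK p) Ω] [IsAlgClosure (KK p) Ω] in
lemma le_nxt (E : IntermediateField (KK p) Ω) (a x : Ω) (hx : x ∈ E) : x ∈ nxt p Ω E a := by
  rw [mem_nxt]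
  exact (adjoin E {a}).algebraMap_mem ⟨x, hx⟩

omit [Algebra (Lam p) Ω] [IsScalarTower (Lam p) (KK p) Ω] [IsAlgClosure (KK p) Ω] in
lemma self_nxt (E : IntermediateField (KK p) Ω) (a : Ω) : a ∈ nxt p Ω E a := by
  rw [mem_nxt]
  exact mem_adjoin_simple_self E a

theorem exists_step (E : IntermediateField (KK p) Ω) (hE : PerfectField E) (a : Ω) :
    ∃ c : Lam p, c ≠ 0 ∧ ∀ n : ℕ, ∀ v ∈ E, v ^ p ^ n = algebraMap (Lam p) Ω c →
      ∃ T : Ω → Ω, IsStep p Ω E (nxt p Ω E a) v T := by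
  classical
  have : CharP Ω p := charP_Om p Ω
  have : IsAlgClosed Ω := IsAlgClosure.isAlgClosed (KK p)
  have : Algebra.IsAlgebraic (KK p) Ω := IsAlgClosure.isAlgebraic
  have : Algebra.IsAlgebraic (Lam p) (KK p) := IsLocalization.isAlgebraic (KK p) (nonZeroDivisors (Lam p))
  have : Algebra.IsAlgebraic (Lam p) Ω := Algebra.IsAlgebraic.trans (Lam p) (KK p) Ω
  have : CharP E p := charP_of_injective_algebraMap (algebraMap (KK p) E).injective p
  have : IsScalarTower (Lam p) E Ω := IsScalarTower.of_algebraMap_eq (fun _ => by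
    rw [IsScalarTower.algebraMap_apply (Lam p) (KK p) Ω, IsScalarTower.algebraMap_apply (Lam p) (KK p) E]
    rfl)
  have ha : IsAlgebraic E a := by
    have : Algebra.IsAlgebraic E Ω := Algebra.IsAlgebraic.tower_top (K := KK p) E
    exact Algebra.IsAlgebraic.isAlgebraic a
  obtain ⟨c, hc, h⟩ := exists_trace (R := Lam p) p a ha
  refine ⟨c, hc, fun n v hvE hv => ?_⟩
  obtain ⟨T, hT1, hT⟩ := h n
  refine ⟨fun x => if hx : x ∈ adjoin E {a} then ((T ⟨x, hx⟩ : E) : Ω) else 0, ?_, ?_, ?_, ?_, ?_⟩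
  · intro x hx
    rw [mem_nxt] at hx
    rw [dif_pos hx]
    exact (T ⟨x, hx⟩).2
  · intro x hx y hy
    rw [mem_nxt] at hx hy
    rw [dif_pos hx, dif_pos hy, dif_pos (add_mem hx hy)]
    have : (⟨x + y, add_mem hx hy⟩ : adjoin E {a}) = ⟨x, hx⟩ + ⟨y, hy⟩ := rfl
    rw [this, map_add]
    rfl
  · intro b hb x hx
    rw [mem_nxt] at hx
    have hb' : b ∈ adjoin E {a} := (adjoin E {a}).algebraMap_mem ⟨b, hb⟩
    rw [dif_pos hx, dif_pos (mul_mem hb' hx)]
    have : (⟨b * x, mul_mem hb' hx⟩ : adjoin E {a}) = (⟨b, hb⟩ : E) • ⟨x, hx⟩ := rfl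
    rw [this, map_smul]
    rfl
  · rw [dif_pos (one_mem _)]
    have : (⟨1, one_mem _⟩ : adjoin E {a}) = 1 := rfl
    rw [this, hT1]
    rfl
  · intro x hx hi
    rw [mem_nxt] at hx
    rw [dif_pos hx]
    have h2 := hT ⟨v, hvE⟩ (Subtype.ext (by
      rw [SubmonoidClass.coe_pow]
      change v ^ p ^ n = algebraMap E Ω (algebraMap (Lam p) E c)
      rw [← IsScalarTower.algebraMap_apply]
      exact hv)) ⟨x, hx⟩ (by
      have : IsScalarTower (Lam p) (adjoin E {a}) Ω := IsScalarTower.of_algebraMap_eq (fun _ => rfl)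
      exact (isIntegral_algebraMap_iff (A := adjoin E {a}) (B := Ω) Subtype.val_injective).1 hi)
    exact h2.algebraMap (B := Ω)

end Pool.Agent.H215R3.SP
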